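import Mathlib
import Pool.Agent.Work.MP_a42ba1_al.PPDual

set_option autoImplicit false

namespace Pool.Agent.Results.MP_a42ba1_al.SDPalfyPudlak

/-- Meet-semidistributive lattices. -/
def MeetSD (L : Type) [Lattice L] : Prop :=
  ∀ a b c : L, a ⊓ b = a ⊓ c → a ⊓ (b ⊔ c) = a ⊓ b

/-- Join-semidistributive lattices. -/
def JoinSD (L : Type) [Lattice L] : Prop :=
  ∀ a b c : L, a ⊔ b = a ⊔ c → a ⊔ (b ⊓ c) = a ⊔ b

/-- `L` is isomorphic to the congruence lattice of a finite algebra. -/
def IsConLattice (L : Type) [LE L] : Prop :=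
  ∃ (m : ℕ) (ops : Set (Σ k : ℕ, (Fin k → Fin m) → Fin m)),
    Nonempty (L ≃o {r : Setoid (Fin m) //
      ∀ o ∈ ops, ∀ x y : Fin o.1 → Fin m,
        (∀ i, r.r (x i) (y i)) → r.r (o.2 x) (o.2 y)})

/-- `L` is isomorphic to an interval in the subgroup lattice of a finite group. -/
def IsSubgroupInterval (L : Type) [LE L] : Prop :=
  ∃ (G : Type) (_ : Group G) (_ : Finite G) (H K : Subgroup G), H ≤ K ∧
    Nonempty (L ≃o Set.Icc H K)

open Pool.Agent.Work.MP_a42ba1_al Pool.Agent.Work.MP_a42ba1_al.PP

/-- **Pálfy–Pudlák theorem for semidistributive lattices.**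
(1) The following are equivalent: every finite meet-semidistributive lattice is the congruence
lattice of a finite algebra; every finite meet-semidistributive lattice is an interval in the
subgroup lattice of a finite group; and the same two statements for join-semidistributive
lattices.
(2) Every finite meet-semidistributive lattice `F` is an interval of a finite
meet-semidistributive lattice `L` such that, if `L` is the congruence lattice of a finite
algebra, then `F` is an interval in the subgroup lattice of a finite group.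
(3) The same for join-semidistributive lattices. -/
theorem result :
    List.TFAE [
      ∀ (L : Type) [Lattice L] [Finite L] [Nonempty L], MeetSD L → IsConLattice L,
      ∀ (L : Type) [Lattice L] [Finite L] [Nonempty L], MeetSD L → IsSubgroupInterval L,
      ∀ (L : Type) [Lattice L] [Finite L] [Nonempty L], JoinSD L → IsConLattice L,
      ∀ (L : Type) [Lattice L] [Finite L] [Nonempty L], JoinSD L → IsSubgroupInterval L] ∧
    (∀ (F : Type) [Lattice F] [Finite F] [Nonempty F], MeetSD F →
      ∃ (L : Type) (_ : Lattice L) (_ : Finite L), MeetSD L ∧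
        (∃ γ δ : L, γ ≤ δ ∧ Nonempty (F ≃o Set.Icc γ δ)) ∧
        (IsConLattice L → IsSubgroupInterval F)) ∧
    (∀ (F : Type) [Lattice F] [Finite F] [Nonempty F], JoinSD F →
      ∃ (L : Type) (_ : Lattice L) (_ : Finite L), JoinSD L ∧
        (∃ γ δ : L, γ ≤ δ ∧ Nonempty (F ≃o Set.Icc γ δ)) ∧
        (IsConLattice L → IsSubgroupInterval F)) := by
  refine ⟨?_, fun F _ _ _ hF => exists_forcing_interval F hF,
    fun F _ _ _ hF => exists_forcing_interval_join F hF⟩
  tfae_have 1 → 2 := by
    intro h F _ _ _ hF
    obtain ⟨L, i1, i2, h1, ⟨γ, -⟩, h2⟩ := exists_forcing_interval F hF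
    have : Nonempty L := ⟨γ⟩
    exact h2 (h L h1)
  tfae_have 2 → 4 := by
    intro h F _ _ _ hF
    exact interval_of_iso (OrderIso.dualDual F) (interval_dual (h Fᵒᵈ (sdm_dual hF)))
  tfae_have 4 → 3 := by
    intro h F _ _ _ hF
    exact representable_of_interval (h F hF)
  tfae_have 3 → 1 := by
    intro h F _ _ _ hF
    exact representable_of_iso (OrderIso.dualDual F) (representable_dual (h Fᵒᵈ (sdj_dual hF)))
  tfae_finish

end Pool.Agent.Results.MP_a42ba1_al.SDPalfyPudlak
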