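import Mathlib
import Pool.Agent.Work.MP_a42ba1_al.Distrib

set_option autoImplicit false

namespace Pool.Agent.Results.MP_a42ba1_al.TwoAtoms

/-- The elements of `L` that are above `c` and not above `d`. -/
def sidePart {L : Type} [Lattice L] (c d : L) : Set L := {x | c ≤ x ∧ ¬ d ≤ x}

/-- The elements of `L` that are above both `c` and `d`. -/
def topPart {L : Type} [Lattice L] (c d : L) : Set L := {x | c ⊔ d ≤ x}

/-- The distributive law holds for the elements of `S`. -/
def DistribOn {L : Type} [Lattice L] (S : Set L) : Prop :=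
  ∀ x ∈ S, ∀ y ∈ S, ∀ z ∈ S, x ⊓ (y ⊔ z) = (x ⊓ y) ⊔ (x ⊓ z)

/-- The ordered set `S` is isomorphic to the lattice of all equivalence relations on a nonempty
finite set that are invariant under some group of permutations of that set. -/
def GroupOn {L : Type} [Lattice L] (S : Set L) : Prop :=
  ∃ (n : ℕ) (Γ : Subgroup (Equiv.Perm (Fin (n + 1)))),
    Nonempty (S ≃o {r : Setoid (Fin (n + 1)) // ∀ g ∈ Γ, ∀ x y, r.r x y → r.r (g x) (g y)})

/-- The join map `x ↦ x ⊔ d` from `sidePart c d` is the composite of two maps preserving binary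
joins, the first one into a finite distributive lattice `D` and the second one defined on `D`. -/
def FactorsThroughDistrib {L : Type} [Lattice L] (c d : L) : Prop :=
  ∃ (D : Type) (_ : DistribLattice D) (_ : Finite D) (α : L → D) (β : D → L),
    (∀ x ∈ sidePart c d, ∀ y ∈ sidePart c d, α (x ⊔ y) = α x ⊔ α y) ∧
    (∀ s t, β (s ⊔ t) = β s ⊔ β t) ∧
    (∀ x ∈ sidePart c d, β (α x) = x ⊔ d)

open Pool.Agent.Work.MP_a42ba1_al

theorem isPerm_of {L : Type} [Lattice L] [Finite L] {S : Set L} (hne : S.Nonempty)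
    (hsup : ∀ x ∈ S, ∀ y ∈ S, x ⊔ y ∈ S) (hinf : ∀ x ∈ S, ∀ y ∈ S, x ⊓ y ∈ S)
    (h : DistribOn S ∨ GroupOn S) : IsPerm S := by
  rcases h with h | h
  · let J : Lattice S := Subtype.lattice (fun x y hx hy => hsup x hx y hy)
      (fun x y hx hy => hinf x hx y hy)
    let I : DistribLattice S := DistribLattice.ofInfSupLe (fun x y z => by
      show x.1 ⊓ (y.1 ⊔ z.1) ≤ (x.1 ⊓ y.1) ⊔ (x.1 ⊓ z.1)
      exact (h x.1 x.2 y.1 y.2 z.1 z.2).le)
    have : Nonempty S := hne.to_subtype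
    exact isPerm_distrib S
  · obtain ⟨n, Γ, ⟨e⟩⟩ := h
    exact ⟨Fin (n + 1), inferInstance, inferInstance, Γ, ⟨e⟩⟩

/-- Let `L` be a finite meet-semidistributive lattice whose atoms are exactly `a` and `b`.
Assume that the parts `sidePart a b`, `sidePart b a` and `topPart a b` are each distributive or
isomorphic to a lattice of invariant partitions of a finite permutation group, and that for each
side the side is distributive, or the top part is distributive, or the join map from the side to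
the top part factors through a finite distributive lattice. Then `L` is the congruence lattice
of a finite algebra. -/
theorem result (L : Type) [Lattice L] [Finite L]
    (hsd : ∀ x y z : L, x ⊓ y = x ⊓ z → x ⊓ (y ⊔ z) = x ⊓ y)
    (a b : L) (hab : ¬ a ≤ b) (hba : ¬ b ≤ a)
    (hatoms : ∀ x : L, (∀ y, x ≤ y) ∨ a ≤ x ∨ b ≤ x)
    (h₁ : DistribOn (sidePart a b) ∨ GroupOn (sidePart a b))
    (h₂ : DistribOn (sidePart b a) ∨ GroupOn (sidePart b a))
    (h₃ : DistribOn (topPart a b) ∨ GroupOn (topPart a b))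
    (f₁ : DistribOn (sidePart a b) ∨ DistribOn (topPart a b) ∨ FactorsThroughDistrib a b)
    (f₂ : DistribOn (sidePart b a) ∨ DistribOn (topPart a b) ∨ FactorsThroughDistrib b a) :
    ∃ (m : ℕ) (ops : Set (Σ k : ℕ, (Fin k → Fin m) → Fin m)),
      Nonempty (L ≃o {r : Setoid (Fin m) //
        ∀ o ∈ ops, ∀ x y : Fin o.1 → Fin m,
          (∀ i, r.r (x i) (y i)) → r.r (o.2 x) (o.2 y)}) := by
  classical
  have prime : ∀ c d : L, ¬ c ≤ d → ¬ d ≤ c → (∀ x : L, (∀ y, x ≤ y) ∨ c ≤ x ∨ d ≤ x) →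
      ∀ x y, c ≤ x ⊔ y → c ≤ x ∨ c ≤ y := by
    intro c d hcd hdc hcov x y hxy
    by_contra hcon
    push Not at hcon
    have hb : ∀ w, ¬ c ≤ w → ∀ y, c ⊓ w ≤ y := by
      intro w hw
      rcases hcov (c ⊓ w) with h | h | h
      · exact h
      · exact absurd (h.trans inf_le_right) hw
      · exact absurd (h.trans inf_le_left) hdc
    have e : c ⊓ x = c ⊓ y := le_antisymm (hb x hcon.1 _) (hb y hcon.2 _)
    have h := hsd c x y e
    rw [inf_eq_left.mpr hxy] at h
    exact hcon.1 (inf_eq_left.mp h.symm)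
  have ha := prime a b hab hba hatoms
  have hatoms' : ∀ x : L, (∀ y, x ≤ y) ∨ b ≤ x ∨ a ≤ x := fun x => by
    rcases hatoms x with h | h | h
    · exact Or.inl h
    · exact Or.inr (Or.inr h)
    · exact Or.inr (Or.inl h)
  have hb := prime b a hba hab hatoms'
  -- closure properties of the parts
  have side_sup : ∀ c d : L, (∀ x y, d ≤ x ⊔ y → d ≤ x ∨ d ≤ y) →
      ∀ x ∈ sidePart c d, ∀ y ∈ sidePart c d, x ⊔ y ∈ sidePart c d := by
    intro c d hd x hx y hy
    refine ⟨hx.1.trans le_sup_left, fun h => ?_⟩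
    rcases hd _ _ h with h | h
    · exact hx.2 h
    · exact hy.2 h
  have side_inf : ∀ c d : L, ∀ x ∈ sidePart c d, ∀ y ∈ sidePart c d, x ⊓ y ∈ sidePart c d :=
    fun c d x hx y hy => ⟨le_inf hx.1 hy.1, fun h => hx.2 (h.trans inf_le_left)⟩
  have top_sup : ∀ c d : L, ∀ x ∈ topPart c d, ∀ y ∈ topPart c d, x ⊔ y ∈ topPart c d :=
    fun c d x hx y hy => le_trans (show c ⊔ d ≤ x from hx) le_sup_left
  have top_inf : ∀ c d : L, ∀ x ∈ topPart c d, ∀ y ∈ topPart c d, x ⊓ y ∈ topPart c d :=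
    fun c d x hx y hy => le_inf hx hy
  -- factorisations
  have fac : ∀ c d : L, ¬ d ≤ c → (∀ x y, d ≤ x ⊔ y → d ≤ x ∨ d ≤ y) →
      (DistribOn (sidePart c d) ∨ DistribOn (topPart c d) ∨ FactorsThroughDistrib c d) →
      Fac c d := by
    intro c d hdc hd h
    rcases h with h | h | h
    · let J : Lattice (sidePart c d) := Subtype.lattice
        (fun x y hx hy => side_sup c d hd x hx y hy) (fun x y hx hy => side_inf c d x hx y hy)
      let I : DistribLattice (sidePart c d) := DistribLattice.ofInfSupLe (fun x y z => by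
        show x.1 ⊓ (y.1 ⊔ z.1) ≤ (x.1 ⊓ y.1) ⊔ (x.1 ⊓ z.1)
        exact (h x.1 x.2 y.1 y.2 z.1 z.2).le)
      let α : L → sidePart c d := fun x => if hx : x ∈ sidePart c d then ⟨x, hx⟩ else
        ⟨c, le_rfl, hdc⟩
      have hα : ∀ x (hx : x ∈ sidePart c d), α x = ⟨x, hx⟩ := fun x hx => dif_pos hx
      refine ⟨sidePart c d, I, inferInstance, α, fun s => s.1 ⊔ d, ?_, ?_, ?_⟩
      · intro x y hx1 hx2 hy1 hy2
        rw [hα x ⟨hx1, hx2⟩, hα y ⟨hy1, hy2⟩, hα _ (side_sup c d hd x ⟨hx1, hx2⟩ y ⟨hy1, hy2⟩)]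
        rfl
      · intro s t
        show (s.1 ⊔ t.1) ⊔ d = (s.1 ⊔ d) ⊔ (t.1 ⊔ d)
        exact sup_sup_distrib_right _ _ _
      · intro x hx1 hx2
        simp only [hα x ⟨hx1, hx2⟩]
    · let J : Lattice (topPart c d) := Subtype.lattice
        (fun x y hx hy => top_sup c d x hx y hy) (fun x y hx hy => top_inf c d x hx y hy)
      let I : DistribLattice (topPart c d) := DistribLattice.ofInfSupLe (fun x y z => by
        show x.1 ⊓ (y.1 ⊔ z.1) ≤ (x.1 ⊓ y.1) ⊔ (x.1 ⊓ z.1)
        exact (h x.1 x.2 y.1 y.2 z.1 z.2).le)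
      let α : L → topPart c d := fun x => ⟨x ⊔ (c ⊔ d), le_sup_right⟩
      refine ⟨topPart c d, I, inferInstance, α, fun s => s.1, ?_, ?_, ?_⟩
      · intro x y _ _ _ _
        apply Subtype.ext
        show (x ⊔ y) ⊔ (c ⊔ d) = (x ⊔ (c ⊔ d)) ⊔ (y ⊔ (c ⊔ d))
        exact sup_sup_distrib_right _ _ _
      · intro s t
        rfl
      · intro x hx1 _
        show x ⊔ (c ⊔ d) = x ⊔ d
        rw [← sup_assoc, sup_eq_left.mpr hx1]
    · obtain ⟨D, i1, i2, α, β, g1, g2, g3⟩ := h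
      exact ⟨D, i1, i2, α, β, fun x y h1 h2 h3 h4 => g1 x ⟨h1, h2⟩ y ⟨h3, h4⟩, g2,
        fun x h1 h2 => g3 x ⟨h1, h2⟩⟩
  have htop : topPart b a = topPart a b := by
    unfold topPart
    rw [sup_comm]
  have p₁ : IsPerm (sidePart a b) := isPerm_of ⟨a, le_rfl, hba⟩ (side_sup a b hb)
    (side_inf a b) h₁
  have p₂ : IsPerm (sidePart b a) := isPerm_of ⟨b, le_rfl, hab⟩ (side_sup b a ha)
    (side_inf b a) h₂
  have p₃ : IsPerm (topPart a b) := isPerm_of ⟨a ⊔ b, le_rfl⟩ (top_sup a b)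
    (top_inf a b) h₃
  exact glueMain a b hab hba hatoms ha hb p₁ p₂ p₃ (fac a b hba hb f₁)
    (fac b a hab ha (by rw [htop]; exact f₂))

end Pool.Agent.Results.MP_a42ba1_al.TwoAtoms
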